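import Pool.Agent.helper17.MK.Spec
import Pool.Agent.helper38.FC.T5
import Pool.Agent.helper99.FC.T3

/-!
# Four clusters, row TB: the sum over `n` of a combination of the `ind τ`
-/

set_option autoImplicit false

namespace Pool.Agent.MK

open Finset Real Pool.Agent.helper39.MT Pool.Agent.helper85.FC

/-- `h ^ ω(D) ≤ C D ^ δ`. -/
lemma TB_pow_omega_le (h : ℕ) {δ : ℝ} (hδ : 0 < δ) : ∃ C : ℝ, 0 < C ∧ ∀ D : ℕ, 0 < D →
    (h : ℝ) ^ D.primeFactors.card ≤ C * (D : ℝ) ^ δ := by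
  set H : ℝ := max 1 h with hH
  have hH1 : 1 ≤ H := le_max_left _ _
  have hHh : (h : ℝ) ≤ H := le_max_right _ _
  set T : ℕ := ⌈(h : ℝ) ^ (1 / δ)⌉₊ with hT
  have hT1 : (h : ℝ) ^ (1 / δ) ≤ T := Nat.le_ceil _
  refine ⟨H ^ (T + 1), by positivity, fun D hD => ?_⟩
  have h1 : (h : ℝ) ^ D.primeFactors.card ≤
      ∏ p ∈ D.primeFactors, ((if p < T + 1 then H else 1) * (p : ℝ) ^ δ) := by
    rw [← prod_const]
    refine prod_le_prod (fun p _ => Nat.cast_nonneg h) fun p hp => ?_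
    have hp1 : (1 : ℝ) ≤ p := by exact_mod_cast (Nat.prime_of_mem_primeFactors hp).one_le
    split_ifs with hlt
    · have h2 : (1 : ℝ) ≤ (p : ℝ) ^ δ := Real.one_le_rpow hp1 hδ.le
      nlinarith
    · rw [one_mul]
      have h3 : T ≤ p := by omega
      have h4 : (h : ℝ) ^ (1 / δ) ≤ p := hT1.trans (by exact_mod_cast h3)
      calc (h : ℝ) = ((h : ℝ) ^ (1 / δ)) ^ δ := by
            rw [← Real.rpow_mul (Nat.cast_nonneg h), one_div_mul_cancel hδ.ne', Real.rpow_one]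
        _ ≤ (p : ℝ) ^ δ :=
            Real.rpow_le_rpow (Real.rpow_nonneg (Nat.cast_nonneg h) _) h4 hδ.le
  rw [prod_mul_distrib] at h1
  refine h1.trans (mul_le_mul ?_ ?_ (prod_nonneg fun p _ => by positivity) (by positivity))
  · rw [← prod_filter, prod_const]
    apply pow_le_pow_right₀ hH1
    calc _ ≤ (range (T + 1)).card := by
          apply card_le_card
          intro p hp
          rw [mem_filter] at hp
          exact mem_range.2 hp.2
      _ = T + 1 := card_range _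
  · rw [Real.finsetProd_rpow _ _ (fun p _ => Nat.cast_nonneg p)]
    apply Real.rpow_le_rpow (prod_nonneg fun p _ => Nat.cast_nonneg p) ?_ hδ.le
    have := Nat.le_of_dvd hD (Nat.prod_primeFactors_dvd D)
    have h5 : ((∏ p ∈ D.primeFactors, p : ℕ) : ℝ) ≤ D := Nat.cast_le.2 this
    rw [Nat.cast_prod] at h5
    exact h5

/-- TB -/
theorem TB : TB_stmt := by
  classical
  intro k D₀ W A B h hD ε hε hε1 K K' hh
  obtain ⟨C3, hC3, hequi⟩ := wt_equi1
  obtain ⟨C4, hC4, hpow⟩ := TB_pow_omega_le (hh * k) (show (0 : ℝ) < ε / 4 by linarith)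
  obtain ⟨Le, hsmall⟩ := Filter.eventually_atTop.1
    (T5_small (K + K') (show (0 : ℝ) < ε / 2 by linarith) (C3 * C4))
  refine ⟨max 2 Le, fun a hL R hR2 hR X hX => ?_⟩
  simp only [max_le_iff] at hL
  obtain ⟨hL2, hLe⟩ := hL
  have hL0 : 0 < a := by linarith
  have hL1 : 1 ≤ a := by linarith
  specialize hsmall a hLe
  obtain ⟨c, hc1, hc2, hc3⟩ := hX
  choose ν hν1 hν2 hν3 using fun τ : PS W R → Option (Fin k) => ind_pat (R := R) h τ
  set Y : ℝ := Real.exp ((1 - ε) * a) with hY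
  have hY0 : 0 < Y := Real.exp_pos _
  set S : ℝ := mass a with hS
  set CP : ℝ := a ^ K' with hCP
  have hCP0 : 0 ≤ CP := by positivity
  have hEx : Ex (fun p : PS W R => mu0 (p : ℝ)) X =
      ∑ τ, c τ * (1 / (dd (fun p : PS W R => (p : ℕ)) τ : ℝ)) := by
    have h1 : Ex (fun p : PS W R => mu0 (p : ℝ)) X =
        ∑ τ, c τ * Ex (fun p : PS W R => mu0 (k := k) (((p : ℕ)) : ℝ)) (ind τ) := by
      unfold Ex
      simp only [hc1, mul_sum]
      rw [sum_comm]
      refine sum_congr rfl fun τ _ => sum_congr rfl fun e _ => ?_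
      ring
    rw [h1]
    refine sum_congr rfl fun τ _ => ?_
    rw [Ex_mu0_ind (fun p : PS W R => (p : ℕ)) τ]
  have hsum : ∑ n ∈ Ioc 0 (NN 1 a), wt 1 a n * X (pat A B (PS W R) n) =
      ∑ τ, c τ * ∑ n ∈ Ioc 0 (NN 1 a) with
        n ≡ ν τ [MOD dd (fun p : PS W R => (p : ℕ)) τ], wt 1 a n := by
    simp only [hc1, mul_sum]
    rw [sum_comm]
    refine sum_congr rfl fun τ _ => ?_
    rw [sum_filter]
    refine sum_congr rfl fun n _ => ?_
    rw [hν2 τ n]
    split_ifs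
    · ring
    · ring
  have hone : ∀ τ : PS W R → Option (Fin k), |c τ * ∑ n ∈ Ioc 0 (NN 1 a) with
        n ≡ ν τ [MOD dd (fun p : PS W R => (p : ℕ)) τ], wt 1 a n -
      S * (c τ * (1 / (dd (fun p : PS W R => (p : ℕ)) τ : ℝ)))| ≤
        |c τ| * (C3 * Real.exp (-a)) := by
    intro τ
    have hd : 0 < dd (fun p : PS W R => (p : ℕ)) τ := (Nat.zero_le _).trans_lt (hν1 τ)
    have h1 := hequi a hL1 _ (ν τ) hd
    rw [← hS] at h1
    set Z := ∑ n ∈ Ioc 0 (NN 1 a) with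
        n ≡ ν τ [MOD dd (fun p : PS W R => (p : ℕ)) τ], wt 1 a n
    have h2 : c τ * Z - S * (c τ * (1 / (dd (fun p : PS W R => (p : ℕ)) τ : ℝ))) =
        c τ * (Z - S / (dd (fun p : PS W R => (p : ℕ)) τ : ℝ)) := by ring
    rw [h2, abs_mul]
    exact mul_le_mul_of_nonneg_left h1 (abs_nonneg _)
  have hYfl : ((⌊Y⌋₊ : ℕ) : ℝ) ≤ Y := Nat.floor_le hY0.le
  have hcsum : ∑ τ, |c τ| ≤ CP * (C4 * Real.exp ((1 - ε / 2) * a)) := by
    have h1 : ∑ τ, |c τ| = ∑ τ : PS W R → Option (Fin k) with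
        (dd (fun p : PS W R => (p : ℕ)) τ : ℝ) ≤ Y, |c τ| := by
      symm
      apply sum_filter_of_ne
      intro τ _ hτ
      have hτ' : c τ ≠ 0 := fun h0 => hτ (by rw [h0, abs_zero])
      exact (hc3 τ hτ').1
    have h2 := sum_labels' k W R Y (fun _ => 1) (fun _ => zero_le_one) hh
    simp only [mul_one] at h2
    have h3 : ∑ D ∈ Icc 1 ⌊Y⌋₊ with Squarefree D ∧ Nat.Coprime D W,
        ((hh * k : ℕ) : ℝ) ^ D.primeFactors.card ≤ C4 * Real.exp ((1 - ε / 2) * a) := by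
      calc ∑ D ∈ Icc 1 ⌊Y⌋₊ with Squarefree D ∧ Nat.Coprime D W,
            ((hh * k : ℕ) : ℝ) ^ D.primeFactors.card
          ≤ ∑ D ∈ Icc 1 ⌊Y⌋₊, ((hh * k : ℕ) : ℝ) ^ D.primeFactors.card :=
            sum_le_sum_of_subset_of_nonneg (filter_subset _ _) fun _ _ _ => by positivity
        _ ≤ ∑ _D ∈ Icc 1 ⌊Y⌋₊, C4 * Y ^ (ε / 4) := by
            refine sum_le_sum fun D hD' => ?_
            rw [mem_Icc] at hD'
            refine (hpow D (by omega)).trans (mul_le_mul_of_nonneg_left ?_ hC4.le)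
            have hD3 : (D : ℝ) ≤ Y := le_trans (by exact_mod_cast hD'.2) hYfl
            exact Real.rpow_le_rpow (Nat.cast_nonneg _) hD3 (by linarith)
        _ = ((⌊Y⌋₊ : ℕ) : ℝ) * (C4 * Y ^ (ε / 4)) := by
            rw [sum_const, Nat.card_Icc, nsmul_eq_mul, Nat.add_sub_cancel]
        _ ≤ Y * (C4 * Y ^ (ε / 4)) :=
            mul_le_mul_of_nonneg_right hYfl (by positivity)
        _ = C4 * (Y * Y ^ (ε / 4)) := by ring
        _ ≤ C4 * Real.exp ((1 - ε / 2) * a) := by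
            refine mul_le_mul_of_nonneg_left ?_ hC4.le
            rw [hY, ← Real.exp_mul, ← Real.exp_add]
            refine Real.exp_le_exp.2 ?_
            nlinarith [mul_pos hε hL0, mul_pos (mul_pos hε hL0) hε]
    rw [h1]
    calc ∑ τ : PS W R → Option (Fin k) with
          (dd (fun p : PS W R => (p : ℕ)) τ : ℝ) ≤ Y, |c τ|
        ≤ ∑ τ : PS W R → Option (Fin k) with
          (dd (fun p : PS W R => (p : ℕ)) τ : ℝ) ≤ Y,
            CP * (hh : ℝ) ^ (#{p | τ p ≠ none}) := by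
          refine sum_le_sum fun τ _ => ?_
          exact hc2 τ
      _ = CP * ∑ τ : PS W R → Option (Fin k) with
          (dd (fun p : PS W R => (p : ℕ)) τ : ℝ) ≤ Y,
            (hh : ℝ) ^ (#{p | τ p ≠ none}) := by rw [mul_sum]
      _ ≤ CP * (C4 * Real.exp ((1 - ε / 2) * a)) :=
          mul_le_mul_of_nonneg_left (h2.trans h3) hCP0
  rw [hsum, hEx, mul_sum, ← sum_sub_distrib]
  have hKp : 0 < a ^ K := by positivity
  have hexp : Real.exp ((1 - ε / 2) * a) * Real.exp (-a) = Real.exp (-(ε / 2 * a)) := by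
    rw [← Real.exp_add]
    congr 1
    ring
  calc |∑ τ, (c τ * ∑ n ∈ Ioc 0 (NN 1 a) with
        n ≡ ν τ [MOD dd (fun p : PS W R => (p : ℕ)) τ], wt 1 a n -
          S * (c τ * (1 / (dd (fun p : PS W R => (p : ℕ)) τ : ℝ))))|
      ≤ ∑ τ, |c τ| * (C3 * Real.exp (-a)) :=
        (abs_sum_le_sum_abs _ _).trans (sum_le_sum fun τ _ => hone τ)
    _ = (∑ τ, |c τ|) * (C3 * Real.exp (-a)) := by rw [← sum_mul]
    _ ≤ (CP * (C4 * Real.exp ((1 - ε / 2) * a))) * (C3 * Real.exp (-a)) :=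
        mul_le_mul_of_nonneg_right hcsum (by positivity)
    _ = C3 * C4 * (a ^ (K + K') * Real.exp (-(ε / 2 * a))) * (1 / a ^ K) := by
        rw [← hexp, hCP, pow_add]
        field_simp
    _ ≤ 1 / 2 * (1 / a ^ K) := mul_le_mul_of_nonneg_right hsmall (by positivity)
    _ ≤ 1 / a ^ K := by
        have : 0 < 1 / a ^ K := by positivity
        linarith

end Pool.Agent.MK
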